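import Pool.Agent.H79.OQ.TB1

/-!
# TBI: the table lemma, induction over the depth
-/

set_option autoImplicit false

namespace Pool.Agent.H79.OQ.TBI

open Finset Pool.Agent.H70.OQ Pool.Agent.H6.NB Pool.Agent.H79.OQ.TB1

theorem ic_le_one (p : Prop) : ic p ≤ 1 := by
  unfold ic
  split_ifs <;> norm_num

theorem ic_true {p : Prop} (h : p) : ic p = 1 := by
  unfold ic
  rw [if_pos h]

theorem errT_nonneg (X : Type) (Y : ℕ → Type) [Fintype X] [∀ i, Fintype (Y i)] (S w G : ℕ) {q : ℝ}
    (h0 : 0 ≤ q) (h1 : q ≤ 1) (k : ℕ) : 0 ≤ errT X Y S w G q k := by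
  unfold errT
  have : 0 ≤ 1 - q := by linarith
  positivity

theorem errT_succ (X : Type) (Y : ℕ → Type) [Fintype X] [∀ i, Fintype (Y i)] (S w G : ℕ) (q : ℝ)
    (k : ℕ) : errT X Y S w G q (k + 1) = errT X Y S w G q k +
      (((S : ℝ) + 1) ^ (k + 1) * (5 / 2 ^ (w + 1)) +
        (Fintype.card (Node X Y k) : ℝ) ^ 2 * (1 - q) ^ G) := by
  unfold errT
  rw [sum_range_succ, add_assoc]

theorem Lof_nonempty {A Z : Type} [Fintype Z] [DecidableEq Z] [Nonempty Z] (l : A × Z → Bool)
    (a : A) : (Lof l a).Nonempty := by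
  unfold Lof
  split_ifs with h
  · exact univ_nonempty
  · exact nonempty_iff_ne_empty.2 h

theorem Lof_eq {A Z : Type} [Fintype Z] [DecidableEq Z] (l : A × Z → Bool)
    (a : A) (h : 0 < (univ.filter fun z => l (a, z) = true).card) :
    Lof l a = univ.filter fun z => l (a, z) = true := by
  unfold Lof
  rw [if_neg]
  intro e
  rw [e] at h
  simp at h

/-- the hidden child is live in the support of the weight -/
theorem live_of_uw {A Z : Type} [Fintype A] [Fintype Z] [DecidableEq Z] (l : A × Z → Bool)
    (hl : ∀ a, 0 < (univ.filter fun z => l (a, z) = true).card) (h' : A → Z)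
    (hne : uw (Lof l) h' ≠ 0) (a : A) : l (a, h' a) = true := by
  unfold uw at hne
  rw [prod_ne_zero_iff] at hne
  have h1 := hne a (mem_univ a)
  by_contra hcon
  apply h1
  rw [if_neg]
  rw [Lof_eq l a (hl a), mem_filter]
  exact fun h => hcon h.2

/-- off the live nodes the value is true -/
theorem glu_true {A Z : Type} [DecidableEq Z] (l : A × Z → Bool) (h' : A → Z)
    (hl : ∀ a, l (a, h' a) = true) (s : A → Bool) (v : A × Z) (hv : l v = false) :
    glu h' s v = true := by
  unfold glu
  have : v.2 ≠ h' v.1 := by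
    intro e
    have := hl v.1
    rw [← e] at this
    rw [this] at hv
    cases hv
  simp [this]

section

variable {X : Type} {Y : ℕ → Type} [Fintype X] [DecidableEq X] [∀ i, Fintype (Y i)]
  [∀ i, DecidableEq (Y i)] [∀ i, Nonempty (Y i)]

omit [∀ i, Fintype (Y i)] [∀ i, Nonempty (Y i)] in
theorem senT_red (k : ℕ) (f : (Node X Y (k + 2) → Bool) → Bool)
    (h : Node X Y (k + 1) → Y (k + 1)) (l : Node X Y (k + 1) → Bool)
    (f' : (Node X Y (k + 1) → Bool) → Bool)
    (hf' : ∀ s : Node X Y (k + 1) → Bool, (∀ a, l a = false → s a = true) → f' s = f (glu h s))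
    (H : Hid X Y k) (h' : Node X Y k → Y k) (hl : ∀ a : Node X Y k, l (a, h' a) = true) :
    senT (k + 2) f (((H, h'), h) : Hid X Y (k + 2)) = senT (k + 1) f' ((H, h') : Hid X Y (k + 1)) := by
  unfold senT
  refine filter_congr fun x _ => ?_
  have e1 : f (tabU (k + 2) (((H, h'), h) : Hid X Y (k + 2)) x) =
      f' (tabU (k + 1) ((H, h') : Hid X Y (k + 1)) x) :=
    (hf' _ (fun v hv => glu_true (A := Node X Y k) l h' hl _ v hv)).symm
  have e2 : f (tabT (k + 2) (((H, h'), h) : Hid X Y (k + 2))) =
      f' (tabT (k + 1) ((H, h') : Hid X Y (k + 1))) :=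
    (hf' _ (fun v hv => glu_true (A := Node X Y k) l h' hl _ v hv)).symm
  rw [e1, e2]

/-- The bound for each pair. -/
theorem pair_le (h5 : T_UWS) (S w G K : ℕ) {q : ℝ} (hq0 : 0 ≤ q) (hq1 : q ≤ 1) (k : ℕ)
    (ih : ∀ (L : Node X Y k → Finset (Y k)) (f : (Node X Y (k + 1) → Bool) → Bool), Fm S w (k + 1) f →
      (∀ a, Fintype.card (Node X Y k) ≤ (L a).card) →
      ∑ H : Hid X Y k, ∑ h : Node X Y k → Y k, uw L h *
        ic (K < (senT (k + 1) f ((H, h) : Hid X Y (k + 1))).card) ≤
      errT X Y S w G q k * Fintype.card (Hid X Y k))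
    (f : (Node X Y (k + 2) → Bool) → Bool) (h : Node X Y (k + 1) → Y (k + 1))
    (l : Node X Y (k + 1) → Bool) :
    ∑ H : Hid X Y k, ∑ h' : Node X Y k → Y k, uw (Lof (A := Node X Y k) l) h' *
        ic (K < (senT (k + 2) f (((H, h'), h) : Hid X Y (k + 2))).card) ≤
      (ic (¬ Red S w (k + 1) f h l) +
        ic (∃ a : Node X Y k, (univ.filter fun z => l (a, z) = true).card <
          Fintype.card (Node X Y k)) + errT X Y S w G q k) * Fintype.card (Hid X Y k) := by
  have hE := errT_nonneg X Y S w G hq0 hq1 k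
  have hcH : (0 : ℝ) ≤ Fintype.card (Hid X Y k) := by positivity
  have huw := h5 (Node X Y k) (Y k) (Lof (A := Node X Y k) l)
  have triv : ∑ H : Hid X Y k, ∑ h' : Node X Y k → Y k, uw (Lof (A := Node X Y k) l) h' *
        ic (K < (senT (k + 2) f (((H, h'), h) : Hid X Y (k + 2))).card) ≤
        1 * Fintype.card (Hid X Y k) := by
    calc ∑ H : Hid X Y k, ∑ h' : Node X Y k → Y k, uw (Lof (A := Node X Y k) l) h' *
          ic (K < (senT (k + 2) f (((H, h'), h) : Hid X Y (k + 2))).card)
        ≤ ∑ H : Hid X Y k, ∑ h' : Node X Y k → Y k, uw (Lof (A := Node X Y k) l) h' := by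
          refine sum_le_sum fun H _ => sum_le_sum fun h' _ => ?_
          exact mul_le_of_le_one_right (huw.1 h') (ic_le_one _)
      _ = ∑ H : Hid X Y k, (1 : ℝ) := by
          refine sum_congr rfl fun H _ => ?_
          exact huw.2 (fun a => Lof_nonempty _ a)
      _ = 1 * Fintype.card (Hid X Y k) := by simp
  by_cases c1 : Red S w (k + 1) f h l
  · by_cases c2 : ∃ a : Node X Y k, (univ.filter fun z => l (a, z) = true).card <
          Fintype.card (Node X Y k)
    · refine triv.trans (mul_le_mul_of_nonneg_right ?_ hcH)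
      rw [ic_true c2]
      have := ic_nonneg (¬ Red S w (k + 1) f h l)
      linarith
    · push Not at c2
      obtain ⟨f', hfm, hf'⟩ := c1
      have hpos : ∀ a : Node X Y k, 0 < (univ.filter fun z => l (a, z) = true).card := fun a =>
        lt_of_lt_of_le (Fintype.card_pos_iff.2 ⟨a⟩) (c2 a)
      have key := ih (Lof (A := Node X Y k) l) f' hfm (fun a => by
        rw [Lof_eq l a (hpos a)]
        exact c2 a)
      have e : ∑ H : Hid X Y k, ∑ h' : Node X Y k → Y k, uw (Lof (A := Node X Y k) l) h' *
          ic (K < (senT (k + 2) f (((H, h'), h) : Hid X Y (k + 2))).card) =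
          ∑ H : Hid X Y k, ∑ h' : Node X Y k → Y k, uw (Lof (A := Node X Y k) l) h' *
          ic (K < (senT (k + 1) f' ((H, h') : Hid X Y (k + 1))).card) := by
        refine sum_congr rfl fun H _ => sum_congr rfl fun h' _ => ?_
        by_cases hz : uw (Lof (A := Node X Y k) l) h' = 0
        · rw [hz, zero_mul, zero_mul]
        · rw [senT_red k f h l f' hf' H h' (live_of_uw (A := Node X Y k) l hpos h' hz)]
      rw [e]
      refine key.trans (mul_le_mul_of_nonneg_right ?_ hcH)
      have := ic_nonneg (¬ Red S w (k + 1) f h l)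
      have := ic_nonneg (∃ a : Node X Y k, (univ.filter fun z => l (a, z) = true).card <
          Fintype.card (Node X Y k))
      linarith
  · refine triv.trans (mul_le_mul_of_nonneg_right ?_ hcH)
    rw [ic_true c1]
    have := ic_nonneg (∃ a : Node X Y k, (univ.filter fun z => l (a, z) = true).card <
          Fintype.card (Node X Y k))
    linarith

end

theorem tbi (h1 : T_TB1) (h2 : T_RED) (h3 : T_SYM) (h4 : T_LIV) (h5 : T_UWS) (h6 : T_LWS) :
    T_TBI := by
  intro X Y _ _ _ _ _ S w G K q hw hq hq64 hK k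
  have hq1 := q_le hw hq hq64
  induction k with
  | zero =>
    intro _ L f hf hL
    have hsum : ∀ F : Hid X Y 0 → ℝ, ∑ H, F H = F () := fun F => Fintype.sum_unique (ι := Unit) F
    rw [hsum, card_hid0]
    have key := h1 X (Y 0) S w K q L f hw hq hq64 hK hL hf
    have e : errT X Y S w G q 0 = 2 / q * (5 / 2 ^ (w + 1)) := by
      unfold errT
      simp
    rw [e, Nat.cast_one, mul_one]
    exact key
  | succ k ih =>
    intro hY L f hf hL
    have ih' := ih (fun i hi => hY i (by omega))
    have hYk : G * Fintype.card (Node X Y k) ≤ Fintype.card (Y k) := hY k (by omega)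
    have huL := h5 (Node X Y (k + 1)) (Y (k + 1)) L
    have hLne : ∀ a, (L a).Nonempty := fun a => by
      rw [← card_pos]
      exact lt_of_lt_of_le (Fintype.card_pos_iff.2 ⟨a⟩) (hL a)
    have huL1 := huL.2 hLne
    have hred := h2 (Node X Y (k + 1)) (Y (k + 1)) S w (k + 1) q L f hw hq hq64 hL hf
    have hsym : ∀ F : (Node X Y k → Y k) → ℝ,
        ∑ l : Node X Y (k + 1) → Bool, lw q l *
          ∑ h : Node X Y k → Y k, uw (Lof (A := Node X Y k) l) h * F h =
        (∑ h, F h) / (Fintype.card (Y k) : ℝ) ^ Fintype.card (Node X Y k) :=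
      fun F => h3 (Node X Y k) (Y k) q F
    have hliv : ∑ l : Node X Y (k + 1) → Bool, lw q l *
        ic (∃ a : Node X Y k, (univ.filter fun z => l (a, z) = true).card <
          Fintype.card (Node X Y k)) ≤
        Fintype.card (Node X Y k) * Fintype.card (Node X Y k) * (1 - q) ^ G :=
      h4 (Node X Y k) (Y k) q (Fintype.card (Node X Y k)) G hq.le hq1 hYk
    have hlw1 : ∑ l : Node X Y (k + 1) → Bool, lw q l = 1 := h6 (Node X Y (k + 1)) q
    have hc : (0 : ℝ) < (Fintype.card (Y k) : ℝ) ^ Fintype.card (Node X Y k) := by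
      have : 0 < Fintype.card (Y k) := Fintype.card_pos
      positivity
    have hcH : (0 : ℝ) ≤ Fintype.card (Hid X Y k) := by positivity
    set c : ℝ := (Fintype.card (Y k) : ℝ) ^ Fintype.card (Node X Y k) with hcdef
    -- the sum over the hidden choices
    have e1 : ∑ H : Hid X Y (k + 1), ∑ h : Node X Y (k + 1) → Y (k + 1), uw L h *
        ic (K < (senT (k + 1 + 1) f ((H, h) : Hid X Y (k + 1 + 1))).card) =
        ∑ h' : Node X Y k → Y k, ∑ H : Hid X Y k, ∑ h : Node X Y (k + 1) → Y (k + 1), uw L h *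
        ic (K < (senT (k + 2) f (((H, h'), h) : Hid X Y (k + 2))).card) := by
      rw [sum_hid, sum_comm]
    have e2 : ∑ h' : Node X Y k → Y k, ∑ H : Hid X Y k, ∑ h : Node X Y (k + 1) → Y (k + 1), uw L h *
        ic (K < (senT (k + 2) f (((H, h'), h) : Hid X Y (k + 2))).card) =
        c * ∑ l : Node X Y (k + 1) → Bool, lw q l *
          ∑ h' : Node X Y k → Y k, uw (Lof (A := Node X Y k) l) h' *
            ∑ H : Hid X Y k, ∑ h : Node X Y (k + 1) → Y (k + 1), uw L h *
              ic (K < (senT (k + 2) f (((H, h'), h) : Hid X Y (k + 2))).card) := by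
      rw [hsym, mul_div_cancel₀ _ hc.ne']
    have e3 : ∑ l : Node X Y (k + 1) → Bool, lw q l *
          ∑ h' : Node X Y k → Y k, uw (Lof (A := Node X Y k) l) h' *
            ∑ H : Hid X Y k, ∑ h : Node X Y (k + 1) → Y (k + 1), uw L h *
              ic (K < (senT (k + 2) f (((H, h'), h) : Hid X Y (k + 2))).card) =
        ∑ h : Node X Y (k + 1) → Y (k + 1), ∑ l : Node X Y (k + 1) → Bool, uw L h * lw q l *
          ∑ H : Hid X Y k, ∑ h' : Node X Y k → Y k, uw (Lof (A := Node X Y k) l) h' *
            ic (K < (senT (k + 2) f (((H, h'), h) : Hid X Y (k + 2))).card) := by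
      rw [sum_comm]
      refine sum_congr rfl fun l _ => ?_
      have : ∑ h' : Node X Y k → Y k, uw (Lof (A := Node X Y k) l) h' *
            ∑ H : Hid X Y k, ∑ h : Node X Y (k + 1) → Y (k + 1), uw L h *
              ic (K < (senT (k + 2) f (((H, h'), h) : Hid X Y (k + 2))).card) =
          ∑ h : Node X Y (k + 1) → Y (k + 1), uw L h *
            ∑ H : Hid X Y k, ∑ h' : Node X Y k → Y k, uw (Lof (A := Node X Y k) l) h' *
            ic (K < (senT (k + 2) f (((H, h'), h) : Hid X Y (k + 2))).card) := by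
        simp only [mul_sum]
        rw [sum_comm]
        rw [sum_comm (s := (univ : Finset (Node X Y (k + 1) → Y (k + 1))))]
        refine sum_congr rfl fun H _ => ?_
        rw [sum_comm]
        refine sum_congr rfl fun h _ => sum_congr rfl fun h' _ => ?_
        ring
      rw [this, mul_sum]
      refine sum_congr rfl fun h _ => ?_
      ring
    rw [e1, e2, e3]
    have e4 : ∑ h : Node X Y (k + 1) → Y (k + 1), ∑ l : Node X Y (k + 1) → Bool, uw L h * lw q l *
          ∑ H : Hid X Y k, ∑ h' : Node X Y k → Y k, uw (Lof (A := Node X Y k) l) h' *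
            ic (K < (senT (k + 2) f (((H, h'), h) : Hid X Y (k + 2))).card) ≤
        ∑ h : Node X Y (k + 1) → Y (k + 1), ∑ l : Node X Y (k + 1) → Bool, uw L h * lw q l *
          ((ic (¬ Red S w (k + 1) f h l) +
        ic (∃ a : Node X Y k, (univ.filter fun z => l (a, z) = true).card <
          Fintype.card (Node X Y k)) + errT X Y S w G q k) * Fintype.card (Hid X Y k)) := by
      refine sum_le_sum fun h _ => sum_le_sum fun l _ => ?_
      exact mul_le_mul_of_nonneg_left (pair_le h5 S w G K hq.le hq1 k ih' f h l)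
        (mul_nonneg (huL.1 h) (lw_nonneg hq.le hq1 l))
    have e5 : ∑ h : Node X Y (k + 1) → Y (k + 1), ∑ l : Node X Y (k + 1) → Bool, uw L h * lw q l *
          ((ic (¬ Red S w (k + 1) f h l) +
        ic (∃ a : Node X Y k, (univ.filter fun z => l (a, z) = true).card <
          Fintype.card (Node X Y k)) + errT X Y S w G q k) * Fintype.card (Hid X Y k)) =
        ((∑ h : Node X Y (k + 1) → Y (k + 1), ∑ l : Node X Y (k + 1) → Bool,
            uw L h * lw q l * ic (¬ Red S w (k + 1) f h l)) +
          (∑ h : Node X Y (k + 1) → Y (k + 1), uw L h) *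
            (∑ l : Node X Y (k + 1) → Bool, lw q l *
              ic (∃ a : Node X Y k, (univ.filter fun z => l (a, z) = true).card <
                Fintype.card (Node X Y k))) +
          (∑ h : Node X Y (k + 1) → Y (k + 1), uw L h) *
            (∑ l : Node X Y (k + 1) → Bool, lw q l) * errT X Y S w G q k) *
          Fintype.card (Hid X Y k) := by
      rw [sum_mul_sum, sum_mul_sum, sum_mul, ← sum_add_distrib, ← sum_add_distrib, sum_mul]
      refine sum_congr rfl fun h _ => ?_
      rw [sum_mul, ← sum_add_distrib, ← sum_add_distrib, sum_mul]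
      refine sum_congr rfl fun l _ => ?_
      ring
    rw [e5, huL1, hlw1, one_mul, one_mul, one_mul] at e4
    calc c * _ ≤ c * (((∑ h : Node X Y (k + 1) → Y (k + 1), ∑ l : Node X Y (k + 1) → Bool,
            uw L h * lw q l * ic (¬ Red S w (k + 1) f h l)) +
            (∑ l : Node X Y (k + 1) → Bool, lw q l *
              ic (∃ a : Node X Y k, (univ.filter fun z => l (a, z) = true).card <
                Fintype.card (Node X Y k))) + errT X Y S w G q k) *
          Fintype.card (Hid X Y k)) := mul_le_mul_of_nonneg_left e4 hc.le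
      _ ≤ c * ((((S : ℝ) + 1) ^ (k + 1) * (5 / 2 ^ (w + 1)) +
            Fintype.card (Node X Y k) * Fintype.card (Node X Y k) * (1 - q) ^ G +
            errT X Y S w G q k) * Fintype.card (Hid X Y k)) := by
          refine mul_le_mul_of_nonneg_left (mul_le_mul_of_nonneg_right ?_ hcH) hc.le
          linarith
      _ = errT X Y S w G q (k + 1) * Fintype.card (Hid X Y (k + 1)) := by
          rw [errT_succ, card_hid]
          push_cast
          rw [← hcdef]
          ring

end Pool.Agent.H79.OQ.TBI
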