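import Pool.Agent.H70.OQ.Targets

/-!
# TB1: the table lemma for formulas of depth one
-/

set_option autoImplicit false

namespace Pool.Agent.H79.OQ.TB1

open Finset Pool.Agent.H70.OQ Pool.Agent.H6.NB

theorem ic_nonneg (p : Prop) : 0 ≤ ic p := by
  unfold ic
  split_ifs <;> norm_num

theorem ic_mono {p r : Prop} (h : p → r) : ic p ≤ ic r := by
  unfold ic
  by_cases hp : p
  · simp [hp, h hp]
  · by_cases hr : r <;> simp [hp, hr]

theorem lw_nonneg {A : Type} [Fintype A] {q : ℝ} (h0 : 0 ≤ q) (h1 : q ≤ 1) (l : A → Bool) :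
    0 ≤ lw q l := by
  unfold lw
  refine prod_nonneg fun a _ => ?_
  split_ifs
  · exact h0
  · linarith

theorem q_le {w : ℕ} {q : ℝ} (hw : 1 ≤ w) (hq : 0 < q) (h : 64 * w * q ≤ 1) : q ≤ 1 := by
  have h1 : (1 : ℝ) ≤ w := by exact_mod_cast hw
  nlinarith [mul_le_mul_of_nonneg_right h1 hq.le]

theorem not_red {X Z : Type} [Fintype X] [DecidableEq X] [DecidableEq Z]
    (h3 : T_DTP) (S w : ℕ) (f : (X × Z → Bool) → Bool) (h : X → Z) (l : X → Bool)
    (hc : w < ((univ.filter fun x =>
      f (glu h fun x' => !decide (x' = x)) ≠ f (glu h fun _ => true)).filter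
        fun x => l x = true).card) : ¬ Red S w 0 f h l := by
  rintro ⟨f', ⟨T, hT, hTf⟩, hs⟩
  obtain ⟨Q, hQ, hQe⟩ := h3 X T (fun _ => true)
  have hsub : ((univ.filter fun x =>
      f (glu h fun x' => !decide (x' = x)) ≠ f (glu h fun _ => true)).filter
        fun x => l x = true) ⊆ Q := by
    intro x hx
    rw [mem_filter, mem_filter] at hx
    by_contra hxQ
    apply hx.1.2
    rw [← hs (fun x' => !decide (x' = x)), ← hs (fun _ => true), ← hTf, ← hTf]
    · apply hQe
      intro v hv
      have : v ≠ x := fun e => hxQ (e ▸ hv)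
      simp [this]
    · intro a _
      rfl
    · intro a ha
      have : a ≠ x := by
        rintro rfl
        rw [hx.2] at ha
        cases ha
      simp [this]
  have := card_le_card hsub
  omega

theorem tb1 (h1 : T_RED) (h2 : T_CL0) (h3 : T_DTP) (h4 : T_UWS) (_h5 : T_LWS) : T_TB1 := by
  intro X Z _ _ _ _ S w K q L f hw hq hq64 hK hL hf
  have hq1 := q_le hw hq hq64
  have hred := h1 X Z S w 0 q L f hw hq hq64 hL hf
  rw [pow_zero, one_mul] at hred
  have huw := (h4 X Z L).1
  have hmain : ∀ h : X → Z, q / 2 * ic (K < (univ.filter fun x =>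
      f (glu h fun x' => !decide (x' = x)) ≠ f (glu h fun _ => true)).card) ≤
      ∑ l : X → Bool, lw q l * ic (¬ Red S w 0 f h l) := by
    intro h
    by_cases hk : K < (univ.filter fun x =>
      f (glu h fun x' => !decide (x' = x)) ≠ f (glu h fun _ => true)).card
    · have e1 : ic (K < (univ.filter fun x =>
          f (glu h fun x' => !decide (x' = x)) ≠ f (glu h fun _ => true)).card) = 1 := by
        unfold ic
        rw [if_pos hk]
      rw [e1, mul_one]
      refine (h2 X q (univ.filter fun x =>
          f (glu h fun x' => !decide (x' = x)) ≠ f (glu h fun _ => true)) w hq.le hq1 ?_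
            (by omega)).trans ?_
      · refine hK.trans ?_
        have : (K : ℝ) ≤ ((univ.filter fun x =>
          f (glu h fun x' => !decide (x' = x)) ≠ f (glu h fun _ => true)).card : ℝ) := by
          exact_mod_cast hk.le
        nlinarith
      · refine sum_le_sum fun l _ => ?_
        exact mul_le_mul_of_nonneg_left (ic_mono fun hc => not_red h3 S w f h l hc)
          (lw_nonneg hq.le hq1 l)
    · have e1 : ic (K < (univ.filter fun x =>
          f (glu h fun x' => !decide (x' = x)) ≠ f (glu h fun _ => true)).card) = 0 := by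
        unfold ic
        rw [if_neg hk]
      rw [e1, mul_zero]
      exact sum_nonneg fun l _ => mul_nonneg (lw_nonneg hq.le hq1 l) (ic_nonneg _)
  have hsum : q / 2 * ∑ h : X → Z, uw L h * ic (K < (univ.filter fun x =>
      f (glu h fun x' => !decide (x' = x)) ≠ f (glu h fun _ => true)).card) ≤
      5 / 2 ^ (w + 1) := by
    refine le_trans ?_ hred
    rw [mul_sum]
    refine sum_le_sum fun h _ => ?_
    calc q / 2 * (uw L h * ic (K < (univ.filter fun x =>
          f (glu h fun x' => !decide (x' = x)) ≠ f (glu h fun _ => true)).card))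
        = uw L h * (q / 2 * ic (K < (univ.filter fun x =>
          f (glu h fun x' => !decide (x' = x)) ≠ f (glu h fun _ => true)).card)) := by ring
      _ ≤ uw L h * ∑ l : X → Bool, lw q l * ic (¬ Red S w 0 f h l) :=
          mul_le_mul_of_nonneg_left (hmain h) (huw h)
      _ = ∑ l : X → Bool, uw L h * lw q l * ic (¬ Red S w 0 f h l) := by
          rw [mul_sum]
          exact sum_congr rfl fun l _ => by ring
  have h2q : 2 / q * (q / 2) = 1 := by field_simp
  calc ∑ h : X → Z, uw L h * ic (K < (univ.filter fun x =>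
      f (glu h fun x' => !decide (x' = x)) ≠ f (glu h fun _ => true)).card)
      = 2 / q * (q / 2 * ∑ h : X → Z, uw L h * ic (K < (univ.filter fun x =>
      f (glu h fun x' => !decide (x' = x)) ≠ f (glu h fun _ => true)).card)) := by
        rw [← mul_assoc, h2q, one_mul]
    _ ≤ 2 / q * (5 / 2 ^ (w + 1)) := mul_le_mul_of_nonneg_left hsum (by positivity)

end Pool.Agent.H79.OQ.TB1
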